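import Pool.Agent.H54.RH.Targets

/-!
# Closed surfaces made of congruent regular hexagons (MP_def5ca_co), row HE: the edges
-/

set_option autoImplicit false

namespace Pool.Agent.H70.RHX

open Pool.Agent.H54.RH
open Pool.Agent.H54.PM (body IsGon IsEdge Un IsPM ver edg chi Ori)

variable {n : ℕ}

/-- the vertex with 0 at `z` and 2 at `y` -/
def vert (h : W n) (z y : Fin n) : W n := Function.update (Function.update h z 0) y 2

theorem vert_y (h : W n) (z y : Fin n) : vert h z y y = 2 := by simp [vert]

theorem vert_z (h : W n) (z y : Fin n) (hzy : z ≠ y) : vert h z y z = 0 := by simp [vert, hzy]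

theorem vert_o (h : W n) (z y t : Fin n) (h1 : t ≠ z) (h2 : t ≠ y) : vert h z y t = h t := by
  simp [vert, h1, h2]

theorem vert_eq0 (h : W n) (z y t : Fin n) (ht : h t = 1) (h0 : vert h z y t = 0) : t = z := by
  by_contra hne
  by_cases h2 : t = y
  · rw [h2, vert_y] at h0
    exact absurd h0 (by decide)
  · rw [vert_o h z y t hne h2, ht] at h0
    exact absurd h0 (by decide)

theorem vert_eq2 (h : W n) (z y t : Fin n) (ht : h t = 1) (h0 : vert h z y t = 2) : t = y := by
  by_contra hne
  by_cases h2 : t = z
  · by_cases hzy : z = y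
    · exact hne (h2.trans hzy)
    · rw [h2, vert_z h z y hzy] at h0
      exact absurd h0 (by decide)
  · rw [vert_o h z y t h2 hne, ht] at h0
    exact absurd h0 (by decide)

theorem vert_inj (h : W n) (z y z' y' : Fin n) (hz : h z = 1) (hy : h y = 1) (hzy : z ≠ y)
    (he : vert h z y = vert h z' y') : z = z' ∧ y = y' := by
  constructor
  · refine vert_eq0 h z' y' z hz ?_
    rw [← he, vert_z h z y hzy]
  · refine vert_eq2 h z' y' y hy ?_
    rw [← he, vert_y]

theorem pw_inj {a b : W n} (h : pw a = pw b) : a = b := by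
  funext t
  have h1 := congrFun h t
  unfold pw at h1
  exact Fin.ext (by exact_mod_cast h1)

theorem pw_vert (h : W n) (z y : Fin n) (hz : h z = 1) (hy : h y = 1) (hzy : z ≠ y) :
    pw (vert h z y) = pw h - Pi.single z (1 : ℝ) + Pi.single y (1 : ℝ) := by
  funext t
  simp only [pw, Pi.add_apply, Pi.sub_apply]
  by_cases h1 : t = z
  · subst h1
    rw [vert_z h t y hzy, Pi.single_eq_same, Pi.single_eq_of_ne hzy, hz]
    norm_num
  · by_cases h2 : t = y
    · subst h2
      rw [vert_y, Pi.single_eq_same, Pi.single_eq_of_ne h1, hy]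
      norm_num
    · rw [vert_o h z y t h1 h2, Pi.single_eq_of_ne h1, Pi.single_eq_of_ne h2]
      ring

theorem mem_hf (h : W n) (x : Fin n → ℝ) : x ∈ hf h ↔ ∃ z y, h z = 1 ∧ h y = 1 ∧ z ≠ y ∧
    x = pw (vert h z y) := by
  classical
  unfold hf
  rw [Finset.mem_image]
  constructor
  · rintro ⟨v, hv, rfl⟩
    obtain ⟨z, y, h1, h2, h3, h4⟩ := (Finset.mem_filter.1 hv).2
    exact ⟨z, y, h1, h2, h3, by rw [h4]; rfl⟩
  · rintro ⟨z, y, h1, h2, h3, h4⟩
    exact ⟨vert h z y, Finset.mem_filter.2 ⟨Finset.mem_univ _, z, y, h1, h2, h3, rfl⟩, h4.symm⟩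

theorem third (h : W n) (hc : (act h).card = 3) (z y : Fin n) (hz : h z = 1) (hy : h y = 1)
    (hzy : z ≠ y) : ∃ w, h w = 1 ∧ w ≠ z ∧ w ≠ y ∧ ∀ t, h t = 1 → t = z ∨ t = y ∨ t = w := by
  classical
  have hz' : z ∈ act h := by simp [act, hz]
  have hy' : y ∈ (act h).erase z := by simp [act, hy, hzy.symm]
  have h1 : (((act h).erase z).erase y).card = 1 := by
    rw [Finset.card_erase_of_mem hy', Finset.card_erase_of_mem hz', hc]
  obtain ⟨w, hw⟩ := Finset.card_eq_one.1 h1
  have hw1 : w ∈ ((act h).erase z).erase y := by rw [hw]; exact Finset.mem_singleton_self _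
  rw [Finset.mem_erase, Finset.mem_erase] at hw1
  refine ⟨w, by simpa [act] using hw1.2.2, hw1.2.1, hw1.1, fun t ht => ?_⟩
  by_contra hcon
  push Not at hcon
  have h2 : t ∈ ((act h).erase z).erase y := by
    rw [Finset.mem_erase, Finset.mem_erase]
    exact ⟨hcon.2.1, hcon.1, by simp [act, ht]⟩
  rw [hw, Finset.mem_singleton] at h2
  exact hcon.2.2 h2

theorem pf_HE : T_HE := by
  classical
  intro n h hc u v
  constructor
  · rintro ⟨hu, hv, huv, f, hf1, hf2⟩
    obtain ⟨z, y, hz, hy, hzy, rfl⟩ := (mem_hf h u).1 hu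
    obtain ⟨z', y', hz', hy', hzy', rfl⟩ := (mem_hf h v).1 hv
    have hne : vert h z y ≠ vert h z' y' := fun e => huv (by rw [e])
    refine ⟨vert h z y, vert h z' y', rfl, rfl, ⟨z, y, hz, hy, hzy, rfl⟩,
      ⟨z', y', hz', hy', hzy', rfl⟩, hne, ?_⟩
    by_contra hcon
    push Not at hcon
    have hzz : z ≠ z' := by
      intro e
      have h1 := hcon z hz (by rw [vert_z h z y hzy, e, vert_z h z' y' hzy'])
      rw [vert_z h z y hzy] at h1
      exact absurd h1 (by decide)
    have hyy : y ≠ y' := by
      intro e
      have h1 := hcon y hy (by rw [vert_y, e, vert_y])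
      rw [vert_y] at h1
      exact absurd h1 (by decide)
    obtain ⟨w, hw, hwz, hwy, hall⟩ := third h hc z y hz hy hzy
    have hval : ∀ a b, h a = 1 → h b = 1 → a ≠ b → f (pw (vert h a b)) =
        f (pw h) - f (Pi.single a 1) + f (Pi.single b 1) := by
      intro a b ha hb hab
      rw [pw_vert h a b ha hb hab, map_add, map_sub]
    have hlt : ∀ a b, h a = 1 → h b = 1 → a ≠ b → ¬ (a = z ∧ b = y) → ¬ (a = z' ∧ b = y') →
        f (Pi.single b 1) - f (Pi.single a 1) < f (Pi.single y 1) - f (Pi.single z 1) := by
      intro a b ha hb hab h1 h2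
      have h3 := hf2 (pw (vert h a b)) ((mem_hf h _).2 ⟨a, b, ha, hb, hab, rfl⟩)
        (fun e => h1 (vert_inj h a b z y ha hb hab (pw_inj e)))
        (fun e => h2 (vert_inj h a b z' y' ha hb hab (pw_inj e)))
      rw [hval a b ha hb hab, hval z y hz hy hzy] at h3
      linarith
    rw [hval z y hz hy hzy, hval z' y' hz' hy' hzy'] at hf1
    rcases hall z' hz' with e | e | e
    · exact hzz e.symm
    · -- z' = y
      rcases hall y' hy' with e' | e' | e'
      · subst e; subst e'
        have h1 := hlt z' w hz' hw hwy.symm (fun hh => hwy hh.2) (fun hh => hwz hh.2)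
        have h2 := hlt w z' hw hz' hwy (fun hh => hwz hh.1) (fun hh => hwy hh.1)
        linarith
      · exact hyy e'.symm
      · subst e; subst e'
        have h1 := hlt z y' hz hy' hwz.symm (fun hh => hyy hh.2.symm) (fun hh => hzz hh.1)
        have h2 := hlt z' z hz' hz hzy.symm (fun hh => hzz hh.1.symm) (fun hh => hwz hh.2.symm)
        linarith
    · -- z' = w
      rcases hall y' hy' with e' | e' | e'
      · subst e; subst e'
        have h1 := hlt z' y hz' hy hwy (fun hh => hzz hh.1.symm) (fun hh => hyy hh.2)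
        have h2 := hlt y y' hy hy' hyy (fun hh => hyy hh.1) (fun hh => hwy hh.1.symm)
        linarith
      · exact hyy e'.symm
      · exact hzy' (e.trans e'.symm)
  · rintro ⟨a, a', rfl, rfl, ⟨z, y, hz, hy, hzy, ha⟩, ⟨z', y', hz', hy', hzy', ha'⟩, hne, t, ht,
      htt, ht1⟩
    have ha1 : a = vert h z y := ha
    have ha2 : a' = vert h z' y' := ha'
    subst ha1; subst ha2
    have hu : pw (vert h z y) ∈ hf h := (mem_hf h _).2 ⟨z, y, hz, hy, hzy, rfl⟩
    have hv : pw (vert h z' y') ∈ hf h := (mem_hf h _).2 ⟨z', y', hz', hy', hzy', rfl⟩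
    refine ⟨hu, hv, fun e => hne (pw_inj e), ?_⟩
    have hcases : vert h z y t = 0 ∨ vert h z y t = 2 := by
      have : ∀ x : Fin 3, x ≠ 1 → x = 0 ∨ x = 2 := by decide
      exact this _ ht1
    rcases hcases with h0 | h0
    · -- the letter 0 at the place `t`
      have e1 := vert_eq0 h z y t ht h0
      have e2 := vert_eq0 h z' y' t ht (by rw [← htt]; exact h0)
      subst e1
      subst e2
      have hyy : y ≠ y' := fun e => hne (by rw [e])
      refine ⟨-(ContinuousLinearMap.proj t), ?_, ?_⟩
      · simp only [ContinuousLinearMap.neg_apply, ContinuousLinearMap.proj_apply, pw, htt]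
      · intro x hx hxu hxv
        obtain ⟨z2, y2, hz2, hy2, hzy2, rfl⟩ := (mem_hf h x).1 hx
        simp only [ContinuousLinearMap.neg_apply, ContinuousLinearMap.proj_apply, pw, h0]
        have h3 : vert h z2 y2 t ≠ 0 := by
          intro h4
          have e3 := vert_eq0 h z2 y2 t ht h4
          subst e3
          obtain ⟨w, hw, hwz, hwy, hall⟩ := third h hc t y hz hy hzy
          have h5 : y' = w := by
            rcases hall y' hy' with e | e | e
            · exact absurd e.symm hzy'
            · exact absurd e.symm hyy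
            · exact e
          rcases hall y2 hy2 with e | e | e
          · exact hzy2 e.symm
          · exact hxu (by rw [e])
          · exact hxv (by rw [e, h5])
        have h4 : 0 < (vert h z2 y2 t).val := by
          rcases Nat.eq_zero_or_pos (vert h z2 y2 t).val with h5 | h5
          · exact absurd (Fin.ext h5) h3
          · exact h5
        have h5 : (0 : ℝ) < ((vert h z2 y2 t).val : ℝ) := by exact_mod_cast h4
        simpa using h5
    · -- the letter 2 at the place `t`
      have e1 := vert_eq2 h z y t ht h0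
      have e2 := vert_eq2 h z' y' t ht (by rw [← htt]; exact h0)
      subst e1
      subst e2
      have hyy : z ≠ z' := fun e => hne (by rw [e])
      refine ⟨ContinuousLinearMap.proj t, ?_, ?_⟩
      · simp only [ContinuousLinearMap.proj_apply, pw, htt]
      · intro x hx hxu hxv
        obtain ⟨z2, y2, hz2, hy2, hzy2, rfl⟩ := (mem_hf h x).1 hx
        simp only [ContinuousLinearMap.proj_apply, pw, h0]
        have h3 : vert h z2 y2 t ≠ 2 := by
          intro h4
          have e3 := vert_eq2 h z2 y2 t ht h4
          subst e3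
          obtain ⟨w, hw, hwz, hwy, hall⟩ := third h hc z t hz hy hzy
          have h5 : z' = w := by
            rcases hall z' hz' with e | e | e
            · exact absurd e.symm hyy
            · exact absurd e hzy'
            · exact e
          rcases hall z2 hz2 with e | e | e
          · exact hxu (by rw [e])
          · exact hzy2 e
          · exact hxv (by rw [e, h5])
        have h4 : (vert h z2 y2 t).val < 2 := by
          have h5 := (vert h z2 y2 t).isLt
          rcases Nat.lt_or_ge (vert h z2 y2 t).val 2 with h6 | h6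
          · exact h6
          · exact absurd (Fin.ext (by show (vert h z2 y2 t).val = 2; omega)) h3
        have h5 : ((vert h z2 y2 t).val : ℝ) < 2 := by exact_mod_cast h4
        simpa using h5

end Pool.Agent.H70.RHX
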